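import Pool.Agent.NH58.Sol

/-! # MP_80f852_al: small solutions of systems of unit and addition equations

For every `n ≥ 1` and every integral `x` some integral `y` with `|y i| ≤ 2 ^ (n - 1)` satisfies all
the equations `z i = 1` and `z i + z j = z k` satisfied by `x`; for every complex `x` the same
bound is attained by some rational `y`. -/

namespace Pool.Agent.Results.MP_80f852_al.SmallSolutions

open Matrix Pool.Agent.NH58.SmallSol

section

variable {K : Type*} [CommRing K] [DecidableEq K] {n : ℕ} (x : Fin n → K)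

/-- The indices which are not forced to be `1`. -/
abbrev Col : Type := {i : Fin n // x i ≠ 1}

/-- The addition relations satisfied by `x`. -/
abbrev Row : Type := {t : Fin n × Fin n × Fin n // x t.2.2 = x t.1 + x t.2.1}

/-- The column of an index; `none` stands for the constant `1`. -/
noncomputable def col (i : Fin n) : Option (Col x) := if h : x i ≠ 1 then some ⟨i, h⟩ else none

/-- First network part of a relation: `z_i - z_k`. -/
noncomputable def P (ρ : Row x) (c : Option (Col x)) : ℤ :=
  (if col x ρ.1.1 = c then 1 else 0) - (if col x ρ.1.2.2 = c then 1 else 0)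

/-- Second network part of a relation: `z_j`. -/
noncomputable def Q (ρ : Row x) (c : Option (Col x)) : ℤ := if col x ρ.1.2.1 = c then 1 else 0

/-- Coefficient matrix. -/
noncomputable def A : Matrix (Row x) (Col x) ℤ := fun ρ c => P x ρ (some c) + Q x ρ (some c)

/-- Right hand side. -/
noncomputable def b (ρ : Row x) : ℤ := -(P x ρ none + Q x ρ none)

lemma netP (ρ : Row x) : NetRow (fun c => P x ρ c) :=
  ⟨some (col x ρ.1.1), some (col x ρ.1.2.2), fun c => by
    simp only [P, Option.some.injEq]⟩

lemma netQ (ρ : Row x) : NetRow (fun c => Q x ρ c) :=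
  ⟨some (col x ρ.1.2.1), none, fun c => by simp [Q, Option.some.injEq]⟩

lemma minor {r : ℕ} (σ : Fin r → Row x) (β : Fin r → Option (Col x)) :
    |(Matrix.of fun i j => P x (σ i) (β j) + Q x (σ i) (β j)).det| ≤ 2 ^ r := by
  by_cases hβ : Function.Injective β
  · exact abs_det_le_two_pow (Matrix.of fun i j => P x (σ i) (β j))
      (Matrix.of fun i j => Q x (σ i) (β j))
      (fun i => (netP x (σ i)).comp β hβ) (fun i => (netQ x (σ i)).comp β hβ)
  · have : ∃ i j, β i = β j ∧ i ≠ j := by
      simpa [Function.Injective] using hβ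
    obtain ⟨i, j, hij, hne⟩ := this
    rw [Matrix.det_zero_of_column_eq hne (fun k => by simp [hij])]
    simp

lemma card_col_le (h1 : ∃ i, x i = 1) : Fintype.card (Col x) ≤ n - 1 := by
  obtain ⟨i, hi⟩ := h1
  have h2 : Fintype.card (Col x) < Fintype.card (Fin n) :=
    Fintype.card_subtype_lt (x := i) (by simpa using hi)
  rw [Fintype.card_fin] at h2
  omega

lemma minorA (h1 : ∃ i, x i = 1) (r : ℕ) (σ : Fin r → Row x) (β : Fin r → Col x) :
    |((A x).submatrix σ β).det| ≤ 2 ^ (n - 1) := by
  by_cases hβ : Function.Injective β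
  · have hr : r ≤ n - 1 := by
      have := Fintype.card_le_of_injective β hβ
      rw [Fintype.card_fin] at this
      exact this.trans (card_col_le x h1)
    exact (minor x σ (fun j => some (β j))).trans (pow_le_pow_right₀ (by norm_num) hr)
  · have : ∃ i j, β i = β j ∧ i ≠ j := by
      simpa [Function.Injective] using hβ
    obtain ⟨i, j, hij, hne⟩ := this
    rw [Matrix.det_zero_of_column_eq hne (fun k => by simp [hij])]
    simp

lemma minorb (h1 : ∃ i, x i = 1) (r : ℕ) (σ : Fin r → Row x) (β : Fin r → Col x) (i : Fin r)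
    (hβ : Function.Injective β) :
    |(((A x).submatrix σ β).updateCol i (fun k => b x (σ k))).det| ≤ 2 ^ (n - 1) := by
  have hr : r ≤ n - 1 := by
    have := Fintype.card_le_of_injective β hβ
    rw [Fintype.card_fin] at this
    exact this.trans (card_col_le x h1)
  have h2 : (((A x).submatrix σ β).updateCol i (fun k => b x (σ k))) =
      ((Matrix.of fun k j => P x (σ k) (Function.update (fun j => some (β j)) i none j) +
        Q x (σ k) (Function.update (fun j => some (β j)) i none j)).updateCol i
          ((-1 : ℤ) • fun k => (P x (σ k) none + Q x (σ k) none))) := by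
    ext k j
    by_cases hj : j = i
    · subst hj; simp [b]
    · simp [hj, A]
  have h3 : (Matrix.of fun k j => P x (σ k) (Function.update (fun j => some (β j)) i none j) +
        Q x (σ k) (Function.update (fun j => some (β j)) i none j)).updateCol i
          (fun k => (P x (σ k) none + Q x (σ k) none)) =
      (Matrix.of fun k j => P x (σ k) (Function.update (fun j => some (β j)) i none j) +
        Q x (σ k) (Function.update (fun j => some (β j)) i none j)) := by
    ext k j
    by_cases hj : j = i
    · subst hj; simp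
    · simp [hj]
  rw [h2, Matrix.det_updateCol_smul, h3, abs_mul]
  simp only [abs_neg, abs_one, one_mul]
  exact (minor x σ _).trans (pow_le_pow_right₀ (by norm_num) hr)

lemma sum_col {L : Type*} [CommRing L] (y : Option (Col x) → L) (i : Fin n) :
    ∑ c : Option (Col x), ((if col x i = c then (1 : ℤ) else 0 : ℤ) : L) * y c = y (col x i) := by
  rw [Finset.sum_eq_single (col x i)]
  · simp
  · intro c _ hc
    rw [if_neg (Ne.symm hc)]; simp
  · intro h; exact absurd (Finset.mem_univ _) h

/-- Extension of a vector by the value `1` at `none`. -/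
def E {L : Type*} [CommRing L] (y : Col x → L) (c : Option (Col x)) : L := c.elim 1 y

lemma E_col {L : Type*} [CommRing L] (y : Col x → L) (i : Fin n) (hi : x i = 1) :
    E x y (col x i) = 1 := by
  simp [E, col, hi]

lemma E_self (i : Fin n) : E x (fun c => x c.1) (col x i) = x i := by
  by_cases hi : x i = 1
  · simp [E, col, hi]
  · simp [E, col, hi]

lemma E_abs {L : Type*} [CommRing L] [LinearOrder L] [IsStrictOrderedRing L] (y : Col x → L)
    (m : L) (hm : 1 ≤ m) (h : ∀ c, |y c| ≤ m) (c : Option (Col x)) : |E x y c| ≤ m := by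
  rcases c with _ | c
  · simpa [E] using hm
  · simpa [E] using h c

/-- A solution of the linear system gives a tuple satisfying the addition relations, and
conversely. -/
lemma sum_A {L : Type*} [CommRing L] (y : Col x → L) (ρ : Row x) :
    ∑ c : Col x, (A x ρ c : L) * y c = (b x ρ : L) ↔
      E x y (col x ρ.1.2.2) = E x y (col x ρ.1.1) + E x y (col x ρ.1.2.1) := by
  have h1 := Fintype.sum_option (fun c : Option (Col x) => ((P x ρ c + Q x ρ c : ℤ) : L) * E x y c)
  have h2 : ∑ c : Option (Col x), ((P x ρ c + Q x ρ c : ℤ) : L) * E x y c =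
      E x y (col x ρ.1.1) + E x y (col x ρ.1.2.1) - E x y (col x ρ.1.2.2) := by
    have e1 := sum_col x (E x y) ρ.1.1
    have e2 := sum_col x (E x y) ρ.1.2.1
    have e3 := sum_col x (E x y) ρ.1.2.2
    rw [← e1, ← e2, ← e3, ← Finset.sum_add_distrib, ← Finset.sum_sub_distrib]
    refine Finset.sum_congr rfl fun c _ => ?_
    simp only [P, Q]
    push_cast
    ring
  have h3 : ∑ c : Col x, (A x ρ c : L) * y c - (b x ρ : L) =
      E x y (col x ρ.1.1) + E x y (col x ρ.1.2.1) - E x y (col x ρ.1.2.2) := by
    rw [← h2, h1]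
    simp only [A, b, E, Option.elim]
    push_cast
    ring
  constructor
  · intro h
    rw [h, sub_self] at h3
    exact (sub_eq_zero.mp h3.symm).symm
  · intro h
    rw [h, sub_self] at h3
    exact sub_eq_zero.mp h3

end

/-- **Integral case.** -/
theorem integral_case (n : ℕ) (x : Fin n → ℤ) : ∃ y : Fin n → ℤ,
    (∀ i, |y i| ≤ 2 ^ (n - 1)) ∧ (∀ i, x i = 1 → y i = 1) ∧
      ∀ i j k, x k = x i + x j → y k = y i + y j := by
  by_cases h1 : ∃ i, x i = 1
  · obtain ⟨y, hy, hyb⟩ := small_solution (A x) (b x) (2 ^ (n - 1)) (minorA x h1) (minorb x h1)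
      (fun c => x c.1) (by
        intro ρ
        have h2 := (sum_A x (L := ℤ) (fun c => x c.1) ρ).mpr
          (by rw [E_self, E_self, E_self]; exact ρ.2)
        simpa using h2)
    refine ⟨fun i => E x y (col x i), ?_, ?_, ?_⟩
    · intro i
      have h1 : (1 : ℤ) ≤ 2 ^ (n - 1) := one_le_pow₀ (by norm_num)
      exact E_abs x y _ h1 hyb _
    · intro i hi
      exact E_col x y i hi
    · intro i j k hijk
      have h2 := (sum_A x (L := ℤ) y ⟨(i, j, k), hijk⟩).mp
        (by simpa using hy ⟨(i, j, k), hijk⟩)
      exact h2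
  · push Not at h1
    exact ⟨0, fun i => by simp, fun i hi => absurd hi (h1 i), fun i j k _ => by simp⟩

/-- **Rational case.** -/
theorem rational_case (n : ℕ) (x : Fin n → ℂ) : ∃ y : Fin n → ℚ,
    (∀ i, |y i| ≤ 2 ^ (n - 1)) ∧ (∀ i, x i = 1 → y i = 1) ∧
      ∀ i j k, x k = x i + x j → y k = y i + y j := by
  by_cases h1 : ∃ i, x i = 1
  · obtain ⟨y, hy, hyb⟩ := small_rational_solution (A x) (b x) (2 ^ (n - 1)) (by positivity)
      (minorb x h1) (fun c => x c.1) (by
        intro ρ
        exact (sum_A x (L := ℂ) (fun c => x c.1) ρ).mpr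
          (by rw [E_self, E_self, E_self]; exact ρ.2))
    refine ⟨fun i => E x y (col x i), ?_, ?_, ?_⟩
    · intro i
      have h1 : (1 : ℚ) ≤ 2 ^ (n - 1) := one_le_pow₀ (by norm_num)
      refine E_abs x y _ h1 (fun c => ?_) _
      have := hyb c
      push_cast at this
      exact this
    · intro i hi
      exact E_col x y i hi
    · intro i j k hijk
      exact (sum_A x (L := ℚ) y ⟨(i, j, k), hijk⟩).mp (hy ⟨(i, j, k), hijk⟩)
  · push Not at h1
    exact ⟨0, fun i => by simp, fun i hi => absurd hi (h1 i), fun i j k _ => by simp⟩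

/-- MP_80f852_al, Q1 (first conjunct) and its rational variant (second conjunct). -/
theorem result :
    (∀ n : ℕ, 1 ≤ n → ∀ x : Fin n → ℤ, ∃ y : Fin n → ℤ,
      (∀ i, |y i| ≤ 2 ^ (n - 1)) ∧ (∀ i, x i = 1 → y i = 1) ∧
        ∀ i j k, x k = x i + x j → y k = y i + y j) ∧
    (∀ n : ℕ, 1 ≤ n → ∀ x : Fin n → ℂ, ∃ y : Fin n → ℚ,
      (∀ i, |y i| ≤ 2 ^ (n - 1)) ∧ (∀ i, x i = 1 → y i = 1) ∧
        ∀ i j k, x k = x i + x j → y k = y i + y j) :=
  ⟨fun n _ x => integral_case n x, fun n _ x => rational_case n x⟩

end Pool.Agent.Results.MP_80f852_al.SmallSolutions
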